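import Pool.Agent.H711.VO.Order
import Pool.Graph.R_pool_sql_team_seeded_2aa45f1a.Q329.HC.Red

/-! Sets of few intervals stored by their end points (helper711). -/

set_option autoImplicit false

open Finset

namespace Pool.Agent.H711.VO

open Pool.Agent.Q329.HC Pool.Agent.Q329.HC.Alg

/-- the places where a set of numbers below `V` begins or ends -/
def code (V : ℕ) (G : Finset ℕ) : Finset ℕ :=
  (range (V + 1)).filter fun c => ¬ (c ∈ G ↔ (0 < c ∧ c - 1 ∈ G))

lemma mem_iff_odd (V : ℕ) (G : Finset ℕ) : ∀ p : ℕ, p ≤ V →
    (p ∈ G ↔ Odd ((code V G).filter (· ≤ p)).card) := by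
  intro p
  induction p with
  | zero =>
    intro _
    by_cases h : 0 ∈ G
    · have : (code V G).filter (· ≤ 0) = {0} := by
        ext c
        simp only [code, mem_filter, mem_range, mem_singleton]
        constructor
        · rintro ⟨_, h1⟩
          omega
        · rintro rfl
          simp [h]
      rw [this]
      simp [h]
    · have : (code V G).filter (· ≤ 0) = ∅ := by
        ext c
        simp only [code, mem_filter, mem_range, notMem_empty, iff_false]
        rintro ⟨⟨_, h2⟩, h1⟩
        have h3 : c = 0 := by omega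
        subst h3
        simp [h] at h2
      rw [this]
      simp [h]
  | succ p ih =>
    intro hp
    have ih := ih (by omega)
    by_cases h : p + 1 ∈ code V G
    · have h1 : (code V G).filter (· ≤ p + 1) = insert (p + 1) ((code V G).filter (· ≤ p)) := by
        ext c
        simp only [mem_filter, mem_insert]
        constructor
        · rintro ⟨h2, h3⟩
          rcases Nat.lt_or_ge p c with h4 | h4
          · left; omega
          · right; exact ⟨h2, h4⟩
        · rintro (rfl | ⟨h2, h3⟩)
          · exact ⟨h, le_refl _⟩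
          · exact ⟨h2, by omega⟩
      rw [h1, card_insert_of_notMem (by simp), Nat.odd_add_one, ← ih]
      have h5 := (mem_filter.mp h).2
      simp only [Nat.succ_pos, Nat.add_sub_cancel, true_and] at h5
      tauto
    · have h1 : (code V G).filter (· ≤ p + 1) = (code V G).filter (· ≤ p) := by
        ext c
        simp only [mem_filter]
        constructor
        · rintro ⟨h2, h3⟩
          refine ⟨h2, ?_⟩
          rcases Nat.lt_or_ge p c with h4 | h4
          · have : c = p + 1 := by omega
            rw [this] at h2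
            exact absurd h2 h
          · exact h4
        · rintro ⟨h2, h3⟩
          exact ⟨h2, by omega⟩
      rw [h1, ← ih]
      by_contra h2
      refine h (mem_filter.mpr ⟨mem_range.mpr (by omega), ?_⟩)
      simp only [Nat.succ_pos, Nat.add_sub_cancel, true_and]
      exact h2

/-- the set with the given end points -/
def dec (V : ℕ) (l : List ℕ) : Finset ℕ :=
  (range V).filter fun p => Odd ((l.toFinset.filter (· ≤ p)).card)

lemma dec_eq {V : ℕ} {G : Finset ℕ} (hG : G ⊆ range V) (l : List ℕ)
    (hl : ∀ c ≤ V, (c ∈ l ↔ c ∈ code V G)) : dec V l = G := by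
  ext p
  unfold dec
  rw [mem_filter, mem_range]
  constructor
  · rintro ⟨h1, h2⟩
    rw [mem_iff_odd V G p h1.le]
    convert h2 using 2
    ext c
    rw [mem_filter, mem_filter, List.mem_toFinset]
    exact ⟨fun h => ⟨(hl c (by omega)).mpr h.1, h.2⟩, fun h => ⟨(hl c (by omega)).mp h.1, h.2⟩⟩
  · intro h
    have h1 : p < V := mem_range.mp (hG h)
    refine ⟨h1, ?_⟩
    rw [mem_iff_odd V G p h1.le] at h
    convert h using 2
    ext c
    rw [mem_filter, mem_filter, List.mem_toFinset]
    exact ⟨fun h => ⟨(hl c (by omega)).mp h.1, h.2⟩, fun h => ⟨(hl c (by omega)).mpr h.1, h.2⟩⟩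

/-- the table of the end points, filled up with `V + 1` -/
noncomputable def tab (V : ℕ) (G : Finset ℕ) (t : ℕ) : ℕ := (code V G).toList.getD t (V + 1)

lemma tab_le (V : ℕ) (G : Finset ℕ) (t : ℕ) : tab V G t ≤ V + 1 := by
  unfold tab
  rcases Nat.lt_or_ge t (code V G).toList.length with h | h
  · rw [List.getD_eq_getElem _ _ h]
    have h1 : (code V G).toList[t] ∈ code V G := mem_toList.mp (List.getElem_mem h)
    have h2 := mem_range.mp (mem_filter.mp h1).1
    omega
  · rw [List.getD_eq_default _ _ h]

lemma mem_tab {V k : ℕ} {G : Finset ℕ} (hk : (code V G).card ≤ k) (c : ℕ) (hc : c ≤ V) :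
    c ∈ List.ofFn (fun t : Fin k => tab V G t) ↔ c ∈ code V G := by
  rw [List.mem_ofFn]
  constructor
  · rintro ⟨t, ht⟩
    unfold tab at ht
    rcases Nat.lt_or_ge t.1 (code V G).toList.length with h | h
    · rw [List.getD_eq_getElem _ _ h] at ht
      rw [← ht]
      exact mem_toList.mp (List.getElem_mem h)
    · rw [List.getD_eq_default _ _ h] at ht
      omega
  · intro h
    obtain ⟨t, h1, h2⟩ := List.mem_iff_getElem.mp (mem_toList.mpr h)
    rw [length_toList] at h1
    refine ⟨⟨t, by omega⟩, ?_⟩
    show tab V G t = c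
    unfold tab
    rw [List.getD_eq_getElem _ _ (by rw [length_toList]; exact h1)]
    exact h2

/-- The structure for sets with few intervals. -/
theorem core (R V k w : ℕ) (hV : V + 1 < 2 ^ w) :
    ∃ (memc : (Fin R → Finset ℕ) → Fin (R * k) → Fin (2 ^ w))
      (algc : Fin R → Fin R → Alg (Fin (R * k)) (Fin (2 ^ w)) (Finset ℕ)),
      ∀ G : Fin R → Finset ℕ, (∀ x, G x ⊆ range V) → (∀ x, (code V (G x)).card ≤ k) →
        ∀ x y, (algc x y).run (memc G) = G x ∩ G y ∧ (algc x y).cost (memc G) ≤ 2 * k := by
  classical
  obtain ⟨ψ⟩ : Nonempty (Fin R × Fin k ≃ Fin (R * k)) := ⟨Fintype.equivFinOfCardEq (by simp)⟩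
  obtain ⟨M, hM⟩ : ∃ M : (Fin R → Finset ℕ) → Fin R × Fin k → Fin (2 ^ w), M = fun G p =>
      enc w (tab V (G p.1) p.2.1) := ⟨_, rfl⟩
  refine ⟨fun G x => M G (ψ.symm x), fun x y =>
    ((readL (List.ofFn fun t : Fin k => (x, t))).bind fun l =>
      (readL (List.ofFn fun t : Fin k => (y, t))).bind fun l' =>
        Alg.out (dec V (l.map fun v => v.1) ∩ dec V (l'.map fun v => v.1))).mapC ψ,
    fun G h1 h2 x y => ?_⟩
  have h3 : (fun x => M G (ψ.symm (ψ x))) = M G := by
    funext x
    rw [Equiv.symm_apply_apply]
  have key : ∀ x : Fin R, dec V (((List.ofFn fun t : Fin k => (x, t)).map (M G)).map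
      fun v => v.1) = G x := by
    intro x
    refine dec_eq (h1 x) _ fun c hc => ?_
    rw [← mem_tab (h2 x) c hc]
    have h4 : ((List.ofFn fun t : Fin k => (x, t)).map (M G)).map (fun v => v.1) =
        List.ofFn (fun t : Fin k => tab V (G x) t) := by
      rw [List.map_map, List.map_ofFn]
      congr 1
      funext t
      show (M G (x, t)).1 = _
      rw [hM]
      show (enc w (tab V (G x) t)).1 = _
      exact enc_val (by have := tab_le V (G x) t; omega)
    rw [h4]
  beta_reduce
  rw [run_mapC, cost_mapC, h3]
  constructor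
  · rw [run_bind, run_readL, run_bind, run_readL]
    show dec V _ ∩ dec V _ = G x ∩ G y
    rw [key x, key y]
  · rw [cost_bind, cost_readL, cost_bind, cost_readL, List.length_ofFn, List.length_ofFn]
    show k + (k + 0) ≤ _
    omega

/-- No `d + 1` of the sets are dually shattered: among the `2 ^ (d + 1)` cells of the Venn diagram of
any `d + 1` of the sets one is empty (cells in the universe `{0, …, U - 1}`). -/
def DualVC (d U : ℕ) {m : ℕ} (F : Fin m → Finset ℕ) : Prop :=
  ∀ J : Finset (Fin m), (∀ T ⊆ J, ∃ u < U, ∀ j ∈ J, (u ∈ F j ↔ j ∈ T)) → J.card ≤ d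

/-- Names for the elements of `H`, such that every set is made of few intervals. -/
theorem names {m U d q V w k : ℕ} (hd : 2 ≤ d) (F : Fin m → Finset ℕ) (hF : DualVC d U F)
    (hUw : U ≤ 2 ^ w) (hV : V ≤ q ^ d) (hk : 2 * Nat.log 2 m + 129 * q ^ (d - 1) + 2 ≤ k)
    (H : Finset ℕ) (hHU : H ⊆ range U) (hHV : H.card ≤ V) :
    ∃ r nm : ℕ → ℕ, (∀ u ∈ H, r u < H.card) ∧ (∀ u ∈ H, nm (r u) = u) ∧ (∀ p, nm p < 2 ^ w) ∧
      ∀ i, (code V ((F i ∩ H).image r)).card ≤ k := by
  classical
  obtain ⟨n, hn⟩ : ∃ n, n = H.card := ⟨_, rfl⟩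
  let el : Fin n ≃ {u // u ∈ H} := (finCongr hn).trans H.equivFin.symm
  obtain ⟨L, hL1, hL2, hL3⟩ := order (fun i => univ.filter fun t : Fin n => (el t).1 ∈ F i)
    hd (q := q) (by omega) (by
      intro J hJ
      refine hF J fun T hT => ?_
      obtain ⟨t, ht⟩ := hJ T hT
      refine ⟨(el t).1, mem_range.mp (hHU (el t).2), fun j hj => ?_⟩
      have := ht j hj
      simpa using this)
  have hlen : L.length = n := by
    have h1 : L.toFinset = univ := by
      ext x
      simp [hL2 x]
    have h2 := List.toFinset_card_of_nodup hL1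
    rw [h1] at h2
    simpa using h2.symm
  have hidx : ∀ x : Fin n, L.idxOf x < n := by
    intro x
    have h1 := List.idxOf_lt_length_of_mem (hL2 x)
    omega
  refine ⟨fun u => if h : u ∈ H then L.idxOf (el.symm ⟨u, h⟩) else 0,
    fun p => if h : p < L.length then (el L[p]).1 else 0, fun u hu => ?_, fun u hu => ?_,
    fun p => ?_, fun i => ?_⟩
  · beta_reduce
    rw [dif_pos hu, ← hn]
    exact hidx _
  · beta_reduce
    rw [dif_pos hu, dif_pos (by rw [hlen]; exact hidx _), List.getElem_idxOf]
    simp
  · beta_reduce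
    split_ifs with h
    · have := mem_range.mp (hHU (el L[p]).2)
      omega
    · exact Nat.pow_pos (by norm_num)
  · obtain ⟨G, hG⟩ : ∃ G, G = (F i ∩ H).image
        fun u => if h : u ∈ H then L.idxOf (el.symm ⟨u, h⟩) else 0 := ⟨_, rfl⟩
    rw [← hG]
    have hmem : ∀ p, p ∈ G ↔ ∃ h : p < L.length, (el L[p]).1 ∈ F i := by
      intro p
      rw [hG, mem_image]
      constructor
      · rintro ⟨u, hu, hup⟩
        obtain ⟨hu1, hu2⟩ := mem_inter.mp hu
        rw [dif_pos hu2] at hup
        have h1 : p < L.length := by rw [← hup, hlen]; exact hidx _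
        refine ⟨h1, ?_⟩
        subst hup
        rw [List.getElem_idxOf]
        simpa using hu1
      · rintro ⟨h1, h2⟩
        refine ⟨(el L[p]).1, mem_inter.mpr ⟨h2, (el L[p]).2⟩, ?_⟩
        rw [dif_pos (el L[p]).2]
        simp only [Subtype.coe_eta, Equiv.symm_apply_apply]
        exact List.Nodup.idxOf_getElem hL1 p h1
    rcases Nat.eq_zero_or_pos n with hn0 | hn0
    · have : code V G = ∅ := by
        ext c
        unfold code
        rw [mem_filter]
        simp only [notMem_empty, iff_false, not_and, not_not]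
        intro _
        rw [hmem, hmem]
        constructor
        · rintro ⟨h1, _⟩
          omega
        · rintro ⟨_, h1, _⟩
          omega
      rw [this]
      simp
    · have hc := hL3 i
      rw [cross_eq _ ⟨0, hn0⟩] at hc
      have hsub : code V G ⊆ {0, n} ∪ ((range (L.length - 1)).filter
          fun p => ¬ (L.getD p ⟨0, hn0⟩ ∈ univ.filter (fun t : Fin n => (el t).1 ∈ F i) ↔
            L.getD (p + 1) ⟨0, hn0⟩ ∈ univ.filter (fun t : Fin n => (el t).1 ∈ F i))).image
              (· + 1) := by
        intro c hc1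
        unfold code at hc1
        rw [mem_filter, hmem, hmem] at hc1
        obtain ⟨_, hc2⟩ := hc1
        rw [mem_union, mem_insert, mem_singleton, mem_image]
        by_cases h0 : c = 0
        · left; left; exact h0
        by_cases h1 : c = n
        · left; right; exact h1
        right
        have h2 : c < n := by
          by_contra h3
          apply hc2
          constructor
          · rintro ⟨h4, _⟩
            omega
          · rintro ⟨_, h4, _⟩
            omega
        refine ⟨c - 1, ?_, by omega⟩
        rw [mem_filter, mem_range]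
        refine ⟨by omega, fun h3 => hc2 ?_⟩
        have e1 : c - 1 + 1 = c := by omega
        rw [e1, List.getD_eq_getElem _ _ (by omega : c - 1 < L.length),
          List.getD_eq_getElem _ _ (by omega : c < L.length)] at h3
        simp only [mem_filter, mem_univ, true_and] at h3
        constructor
        · rintro ⟨h4, h5⟩
          exact ⟨by omega, by omega, h3.mpr h5⟩
        · rintro ⟨_, h4, h5⟩
          exact ⟨by omega, h3.mp h5⟩
      refine (card_le_card hsub).trans ((card_union_le _ _).trans ?_)
      have h4 : ({0, n} : Finset ℕ).card ≤ 2 := card_le_two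
      have h5 := card_image_le (s := (range (L.length - 1)).filter
          fun p => ¬ (L.getD p ⟨0, hn0⟩ ∈ univ.filter (fun t : Fin n => (el t).1 ∈ F i) ↔
            L.getD (p + 1) ⟨0, hn0⟩ ∈ univ.filter (fun t : Fin n => (el t).1 ∈ F i)))
          (f := (· + 1))
      omega

end Pool.Agent.H711.VO
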