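import Pool.Agent.H711.VO.Main

/-! SetIntersection for families of bounded (dual) VC-dimension: all query times (helper711). -/

set_option autoImplicit false

open Finset

namespace Pool.Agent.H711.VO

/-- No `v + 1` elements are shattered by the family: the VC-dimension of the family is at most `v`. -/
def VC (v : ℕ) {m : ℕ} (F : Fin m → Finset ℕ) : Prop :=
  ∀ X : Finset ℕ, (∀ Y ⊆ X, ∃ i, F i ∩ X = Y) → X.card ≤ v

lemma VC.dual {v m : ℕ} {F : Fin m → Finset ℕ} (h : VC v F) (U : ℕ) :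
    DualVC (2 ^ (v + 1)) U F := by
  classical
  intro J hJ
  by_contra hcard
  push Not at hcard
  obtain ⟨σ⟩ : Nonempty (Finset (Fin (v + 1)) ↪ {j // j ∈ J}) := by
    apply Function.Embedding.nonempty_of_card_le
    rw [Fintype.card_coe, Fintype.card_finset, Fintype.card_fin]
    exact hcard.le
  have h1 : ∀ t : Fin (v + 1), ∃ u : ℕ, ∀ A : Finset (Fin (v + 1)), (u ∈ F (σ A).1 ↔ t ∈ A) := by
    intro t
    obtain ⟨u, _, hu⟩ := hJ (J.filter fun j => ∃ A, t ∈ A ∧ (σ A).1 = j) (filter_subset _ _)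
    refine ⟨u, fun A => ?_⟩
    rw [hu _ (σ A).2, mem_filter]
    constructor
    · rintro ⟨_, B, hB, hBA⟩
      have : B = A := σ.injective (Subtype.ext hBA)
      rwa [this] at hB
    · intro hA
      exact ⟨(σ A).2, A, hA, rfl⟩
  choose u hu using h1
  have hinj : Function.Injective u := by
    intro t t' htt
    have h2 := (hu t {t}).mpr (mem_singleton_self t)
    rw [htt, hu t' {t}, mem_singleton] at h2
    exact h2.symm
  have h3 := h (univ.image u) (by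
    intro Y hY
    refine ⟨(σ (univ.filter fun t => u t ∈ Y)).1, ?_⟩
    ext x
    rw [mem_inter, mem_image]
    constructor
    · rintro ⟨h4, t, _, rfl⟩
      rw [hu, mem_filter] at h4
      exact h4.2
    · intro hx
      obtain ⟨t, _, rfl⟩ := mem_image.mp (hY hx)
      refine ⟨?_, t, mem_univ _, rfl⟩
      rw [hu, mem_filter]
      exact ⟨mem_univ _, hx⟩)
  rw [card_image_of_injective _ hinj, card_univ, Fintype.card_fin] at h3
  omega

/-- All query times. -/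
theorem tradeoff {d m U N w T : ℕ} (hd : 2 ≤ d) (hN : 2 ≤ N) (hw : N ^ 2 < 2 ^ w)
    (hUw : U ≤ 2 ^ w) (hm : m ≤ N) (hT : 802 * (Nat.log 2 N + 1) ≤ T)
    (hTN : T ^ d ≤ N ^ (d - 1)) :
    ∃ s : ℕ, (s : ℝ) * (T : ℝ) ^ ((d : ℝ) / ((d : ℝ) - 1)) ≤
        2 ^ (d + 21) * ((Nat.log 2 N : ℝ) + 2) ^ 2 * (N : ℝ) ^ 2 ∧
      HasStructureFor m U N (DualVC d U) s w T 1 := by
  have hd' : (2 : ℝ) ≤ d := by exact_mod_cast hd
  have hd1 : (1 : ℝ) ≤ (d : ℝ) - 1 := by linarith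
  have hT1 : (802 : ℝ) ≤ T := by
    have : 802 ≤ T := by omega
    exact_mod_cast this
  obtain ⟨x, hx⟩ : ∃ x : ℝ, x = ((T : ℝ) / 802) ^ (1 / ((d : ℝ) - 1)) := ⟨_, rfl⟩
  have hy1 : (1 : ℝ) ≤ (T : ℝ) / 802 := by
    rw [le_div_iff₀ (by norm_num)]
    linarith
  have hx1 : 1 ≤ x := by
    rw [hx]
    exact Real.one_le_rpow hy1 (by positivity)
  have hxd : x ^ (d - 1) = (T : ℝ) / 802 := by
    rw [hx, ← Real.rpow_natCast, ← Real.rpow_mul (by linarith), Nat.cast_sub (by omega)]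
    push_cast
    rw [one_div_mul_cancel (by linarith : (d : ℝ) - 1 ≠ 0), Real.rpow_one]
  obtain ⟨q, hq⟩ : ∃ q, q = ⌊x⌋₊ := ⟨_, rfl⟩
  have hq1 : 1 ≤ q := by
    rw [hq]
    exact Nat.le_floor (by exact_mod_cast hx1)
  have hqx : (q : ℝ) ≤ x := by
    rw [hq]
    exact Nat.floor_le (by linarith)
  have hxq : x ≤ 2 * (q : ℝ) := by
    have h1 := Nat.lt_floor_add_one x
    rw [← hq] at h1
    have h2 : (1 : ℝ) ≤ q := by exact_mod_cast hq1
    linarith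
  have h802 : 802 * q ^ (d - 1) ≤ T := by
    have h1 : (q : ℝ) ^ (d - 1) ≤ (T : ℝ) / 802 := by
      rw [← hxd]
      exact pow_le_pow_left₀ (by positivity) hqx _
    rw [le_div_iff₀ (by norm_num)] at h1
    have h2 : ((802 * q ^ (d - 1) : ℕ) : ℝ) ≤ (T : ℝ) := by
      push_cast
      linarith
    exact_mod_cast h2
  have hqd : q ^ d ≤ N := by
    have h1 : (q ^ d) ^ (d - 1) ≤ N ^ (d - 1) := by
      refine le_trans ?_ hTN
      rw [← pow_mul, mul_comm d (d - 1), pow_mul]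
      refine Nat.pow_le_pow_left ?_ d
      omega
    exact (Nat.pow_le_pow_iff_left (by omega)).mp h1
  obtain ⟨s, hs, hs2⟩ := upper (m := m) (U := U) (w := w) hd hq1 hqd hN hw hUw hm
  refine ⟨s, ?_, hs2.weaken (by omega) (fun _ _ h => h)⟩
  have h1 : (T : ℝ) ^ ((d : ℝ) / ((d : ℝ) - 1)) ≤ 2 ^ (d + 20) * (q : ℝ) ^ d := by
    have e0 : (T : ℝ) = 802 * ((T : ℝ) / 802) := by ring
    have e1 : (T : ℝ) ^ ((d : ℝ) / ((d : ℝ) - 1)) =
        (802 : ℝ) ^ ((d : ℝ) / ((d : ℝ) - 1)) * x ^ d := by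
      conv_lhs => rw [e0]
      rw [Real.mul_rpow (by norm_num) (by linarith)]
      congr 1
      rw [hx, ← Real.rpow_natCast, ← Real.rpow_mul (by linarith)]
      congr 1
      ring
    have e2 : (802 : ℝ) ^ ((d : ℝ) / ((d : ℝ) - 1)) ≤ 2 ^ 20 := by
      have e3 : (d : ℝ) / ((d : ℝ) - 1) ≤ 2 := by
        rw [div_le_iff₀ (by linarith)]
        linarith
      calc (802 : ℝ) ^ ((d : ℝ) / ((d : ℝ) - 1)) ≤ (802 : ℝ) ^ (2 : ℝ) :=
            Real.rpow_le_rpow_of_exponent_le (by norm_num) e3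
        _ = (802 : ℝ) ^ (2 : ℕ) := by norm_num
        _ ≤ 2 ^ 20 := by norm_num
    have e4 : x ^ d ≤ 2 ^ d * (q : ℝ) ^ d := by
      rw [← mul_pow]
      exact pow_le_pow_left₀ (by linarith) hxq _
    rw [e1]
    calc (802 : ℝ) ^ ((d : ℝ) / ((d : ℝ) - 1)) * x ^ d ≤ 2 ^ 20 * (2 ^ d * (q : ℝ) ^ d) :=
          mul_le_mul e2 e4 (by positivity) (by positivity)
      _ = _ := by ring
  have h2 : (s : ℝ) * (q : ℝ) ^ d ≤ 2 * ((Nat.log 2 N : ℝ) + 2) ^ 2 * (N : ℝ) ^ 2 := by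
    exact_mod_cast hs
  calc (s : ℝ) * (T : ℝ) ^ ((d : ℝ) / ((d : ℝ) - 1)) ≤ (s : ℝ) * (2 ^ (d + 20) * (q : ℝ) ^ d) :=
        mul_le_mul_of_nonneg_left h1 (Nat.cast_nonneg _)
    _ = 2 ^ (d + 20) * ((s : ℝ) * (q : ℝ) ^ d) := by ring
    _ ≤ 2 ^ (d + 20) * (2 * ((Nat.log 2 N : ℝ) + 2) ^ 2 * (N : ℝ) ^ 2) :=
        mul_le_mul_of_nonneg_left h2 (by positivity)
    _ = _ := by ring

end Pool.Agent.H711.VO
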