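import Pool.Agent.H711.VO.Final

/-! Hereditary classes of set families: a class which does not contain all families has bounded dual
VC-dimension (helper711). -/

set_option autoImplicit false

open Finset

namespace Pool.Agent.H711.VO

/-- The family `F` contains the family `C` as an induced configuration: for `k` different sets of `F`
and different elements `τ u < U`, one for each `u` in `C 0 ∪ C 1 ∪ …`, the element `τ u` is in the set
number `σ i` of `F` if and only if `u` is in `C i`. -/
def Contains (U : ℕ) {m k : ℕ} (F : Fin m → Finset ℕ) (C : Fin k → Finset ℕ) : Prop :=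
  ∃ (σ : Fin k → Fin m) (τ : ℕ → ℕ), Function.Injective σ ∧
    Set.InjOn τ {u | ∃ i, u ∈ C i} ∧
    ∀ u, (∃ i, u ∈ C i) → τ u < U ∧ ∀ i, (τ u ∈ F (σ i) ↔ u ∈ C i)

/-- The class `P` of families is closed under deleting sets and elements and under renaming: if it
contains `F`, then it contains the families of the traces, on a set `V` of elements, of different
members of `F`. -/
def Hereditary (P : ∀ m : ℕ, (Fin m → Finset ℕ) → Prop) : Prop :=
  ∀ (m k : ℕ) (F : Fin m → Finset ℕ) (σ : Fin k → Fin m) (τ : ℕ → ℕ) (V : Finset ℕ),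
    Function.Injective σ → Function.Injective τ → P m F →
      P k (fun i => V.filter fun u => τ u ∈ F (σ i))

/-- A family that does not contain the configuration `C` (`k` sets, at most `l` elements in their
union) has dual VC-dimension less than `k + ⌈log₂ l⌉`. -/
theorem dualVC_of_not_contains {m k l d U : ℕ} (F : Fin m → Finset ℕ) (C : Fin k → Finset ℕ)
    (hl : (univ.biUnion C).card ≤ l) (hd : k + Nat.clog 2 l ≤ d + 1) (h : ¬ Contains U F C) :
    DualVC d U F := by
  classical
  intro J hJ
  by_contra hcard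
  push Not at hcard
  apply h
  obtain ⟨V, hV⟩ : ∃ V, V = univ.biUnion C := ⟨_, rfl⟩
  have hVmem : ∀ u, u ∈ V ↔ ∃ i, u ∈ C i := by
    intro u
    rw [hV, mem_biUnion]
    simp
  obtain ⟨e⟩ : Nonempty (Fin k ⊕ Fin (Nat.clog 2 l) ↪ {j // j ∈ J}) := by
    apply Function.Embedding.nonempty_of_card_le
    rw [Fintype.card_coe, Fintype.card_sum, Fintype.card_fin, Fintype.card_fin]
    omega
  obtain ⟨c⟩ : Nonempty ({u // u ∈ V} ↪ Finset (Fin (Nat.clog 2 l))) := by
    apply Function.Embedding.nonempty_of_card_le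
    rw [Fintype.card_coe, Fintype.card_finset, Fintype.card_fin, hV]
    exact hl.trans (Nat.le_pow_clog (by norm_num) l)
  -- the elements
  have h1 : ∀ u : {u // u ∈ V}, ∃ x < U, (∀ i, (x ∈ F (e (Sum.inl i)).1 ↔ u.1 ∈ C i)) ∧
      ∀ b, (x ∈ F (e (Sum.inr b)).1 ↔ b ∈ c u) := by
    intro u
    obtain ⟨x, hxU, hx⟩ := hJ (J.filter fun j =>
      (∃ i, u.1 ∈ C i ∧ (e (Sum.inl i)).1 = j) ∨ ∃ b, b ∈ c u ∧ (e (Sum.inr b)).1 = j)
      (filter_subset _ _)
    refine ⟨x, hxU, fun i => ?_, fun b => ?_⟩
    · rw [hx _ (e (Sum.inl i)).2, mem_filter]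
      constructor
      · rintro ⟨_, ⟨i', hi', h2⟩ | ⟨b, _, h2⟩⟩
        · have h3 := e.injective (Subtype.ext h2)
          rw [Sum.inl.injEq] at h3
          rwa [← h3]
        · have h3 := e.injective (Subtype.ext h2)
          cases h3
      · intro h2
        exact ⟨(e (Sum.inl i)).2, Or.inl ⟨i, h2, rfl⟩⟩
    · rw [hx _ (e (Sum.inr b)).2, mem_filter]
      constructor
      · rintro ⟨_, ⟨i', hi', h2⟩ | ⟨b', hb', h2⟩⟩
        · have h3 := e.injective (Subtype.ext h2)
          cases h3
        · have h3 := e.injective (Subtype.ext h2)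
          rw [Sum.inr.injEq] at h3
          rwa [← h3]
      · intro h2
        exact ⟨(e (Sum.inr b)).2, Or.inr ⟨b, h2, rfl⟩⟩
  choose x hxU hx1 hx2 using h1
  have hinj : Function.Injective x := by
    intro u v huv
    apply c.injective
    ext b
    rw [← hx2 u b, ← hx2 v b, huv]
  refine ⟨fun i => (e (Sum.inl i)).1, fun u => if hu : u ∈ V then x ⟨u, hu⟩ else 0, ?_, ?_, ?_⟩
  · intro i i' hii
    have h3 := e.injective (Subtype.ext hii)
    rwa [Sum.inl.injEq] at h3
  · intro u hu v hv huv
    have hu' : u ∈ V := (hVmem u).mpr hu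
    have hv' : v ∈ V := (hVmem v).mpr hv
    simp only [hu', hv', dif_pos] at huv
    have h3 := hinj huv
    exact congrArg Subtype.val h3
  · intro u hu
    have hu' : u ∈ V := (hVmem u).mpr hu
    simp only [hu', dif_pos]
    exact ⟨hxU _, fun i => hx1 ⟨u, hu'⟩ i⟩

/-- A hereditary class that contains a family `F` contains all configurations of `F`. -/
theorem Hereditary.of_contains {P : ∀ m : ℕ, (Fin m → Finset ℕ) → Prop} (hP : Hereditary P)
    {m k U : ℕ} {F : Fin m → Finset ℕ} {C : Fin k → Finset ℕ} (hF : P m F) (h : Contains U F C) :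
    P k C := by
  classical
  obtain ⟨σ, τ, hσ, hτ, h⟩ := h
  obtain ⟨V, hV⟩ : ∃ V, V = univ.biUnion C := ⟨_, rfl⟩
  have hVmem : ∀ u, u ∈ V ↔ ∃ i, u ∈ C i := by
    intro u
    rw [hV, mem_biUnion]
    simp
  have h1 := hP m k F σ (fun u => if u ∈ V then τ u else u + U) V hσ (by
    intro u v huv
    beta_reduce at huv
    by_cases hu : u ∈ V
    · by_cases hv : v ∈ V
      · rw [if_pos hu, if_pos hv] at huv
        exact hτ ((hVmem u).mp hu) ((hVmem v).mp hv) huv
      · rw [if_pos hu, if_neg hv] at huv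
        have := (h u ((hVmem u).mp hu)).1
        omega
    · by_cases hv : v ∈ V
      · rw [if_neg hu, if_pos hv] at huv
        have := (h v ((hVmem v).mp hv)).1
        omega
      · rw [if_neg hu, if_neg hv] at huv
        omega) hF
  have h2 : (fun i => V.filter fun u => (if u ∈ V then τ u else u + U) ∈ F (σ i)) = C := by
    funext i
    ext u
    rw [mem_filter]
    constructor
    · rintro ⟨h3, h4⟩
      rw [if_pos h3] at h4
      exact ((h u ((hVmem u).mp h3)).2 i).mp h4
    · intro h3
      have h4 : u ∈ V := (hVmem u).mpr ⟨i, h3⟩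
      refine ⟨h4, ?_⟩
      rw [if_pos h4]
      exact ((h u ⟨i, h3⟩).2 i).mpr h3
  rw [h2] at h1
  exact h1

end Pool.Agent.H711.VO
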