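import Pool.Agent.H711.VO.Code

/-! SetIntersection for families of bounded dual VC-dimension (helper711). -/

set_option autoImplicit false

open Finset

namespace Pool.Agent.H711.VO

open Pool.Agent.Q329.HC Pool.Agent.Q329.HC.Alg

/-- There is a cell-probe data structure with `s` cells of `w` bits for SetIntersection for the
families of `m` subsets of `{0, …, U - 1}` of total size at most `N` with the property `P`: the memory
`mem F` depends on the family `F`, the query algorithm `alg i j` on the indices `i` and `j` only; it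
outputs the intersection of the sets `F i` and `F j` and probes at most `a + b * op` cells, `op` being
the size of the intersection. -/
def HasStructureFor (m U N : ℕ) (P : (Fin m → Finset ℕ) → Prop) (s w a b : ℕ) : Prop :=
  ∃ (mem : (Fin m → Finset ℕ) → Fin s → Fin (2 ^ w))
    (alg : Fin m → Fin m → Alg (Fin s) (Fin (2 ^ w)) (Finset ℕ)),
    ∀ F : Fin m → Finset ℕ, (∀ i, F i ⊆ Finset.range U) → ∑ i, (F i).card ≤ N → P F → ∀ i j,
      (alg i j).run (mem F) = F i ∩ F j ∧
      (alg i j).cost (mem F) ≤ a + b * (F i ∩ F j).card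

lemma HasStructureFor.weaken {m U N s w a b a' : ℕ} {P Q : (Fin m → Finset ℕ) → Prop}
    (h : HasStructureFor m U N P s w a b) (ha : a ≤ a')
    (hPQ : ∀ F, (∀ i, F i ⊆ Finset.range U) → Q F → P F) :
    HasStructureFor m U N Q s w a' b := by
  obtain ⟨mem, alg, h⟩ := h
  exact ⟨mem, alg, fun F h1 h2 h3 i j => ⟨(h F h1 h2 (hPQ F h1 h3) i j).1,
    (h F h1 h2 (hPQ F h1 h3) i j).2.trans (by omega)⟩⟩

/-- The structure for one family. -/
lemma per_family {m U N w T K V k : ℕ} (hT : 0 < T) (hK : Nat.log 2 N + 2 ≤ K) (hKT : K ≤ T)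
    (hw : N ^ 2 < 2 ^ w) (hUw : U ≤ 2 ^ w) (hN1 : 1 ≤ N) (hV : 0 < V)
    (memc : (Fin (K * N / T) → Finset ℕ) → Fin (K * N / T * k) → Fin (2 ^ w))
    (algc : Fin (K * N / T) → Fin (K * N / T) → Alg (Fin (K * N / T * k)) (Fin (2 ^ w)) (Finset ℕ))
    (hc : ∀ G : Fin (K * N / T) → Finset ℕ, (∀ x, G x ⊆ range V) →
      (∀ x, (code V (G x)).card ≤ k) → ∀ x y, (algc x y).run (memc G) = G x ∩ G y ∧
        (algc x y).cost (memc G) ≤ 2 * k)
    (F : Fin m → Finset ℕ) (hU : ∀ i, F i ⊆ range U) (hN : ∑ i, (F i).card ≤ N)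
    (hord : ∀ H : Finset ℕ, H ⊆ range U → H.card ≤ V → ∃ r nm : ℕ → ℕ,
      (∀ u ∈ H, r u < H.card) ∧ (∀ u ∈ H, nm (r u) = u) ∧ (∀ p, nm p < 2 ^ w) ∧
      ∀ i, (code V ((F i ∩ H).image r)).card ≤ k) :
    ∃ M : Adr m N (K * N / T) (N * (N / V)) V (K * N / T * k) → Fin (2 ^ w), ∀ i j,
      (alg algc (Nat.log 2 N + 1) i j).run M = F i ∩ F j ∧
      (alg algc (Nat.log 2 N + 1) i j).cost M ≤ 2 * k + T + 8 + (F i ∩ F j).card := by
  classical
  obtain ⟨e, E₀, he1, he2₀, hE1₀, hE2₀⟩ := extract (K := K) hT F hU hN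
  obtain ⟨E, hE⟩ : ∃ E : Fin (K * N / T) → Finset ℕ,
      E = fun x => if ∃ i, e i = some x then E₀ x else ∅ := ⟨_, rfl⟩
  have hEsub : ∀ x, E x ⊆ E₀ x := by
    intro x
    rw [hE]
    beta_reduce
    split_ifs
    · exact Subset.refl _
    · exact empty_subset _
  have he2 : ∀ i x, e i = some x → E x = F i := by
    intro i x hi
    rw [hE]
    beta_reduce
    rw [if_pos ⟨i, hi⟩]
    exact he2₀ i x hi
  have hEF : ∀ x, E x = ∅ ∨ ∃ i, E x = F i := by
    intro x
    by_cases h : ∃ i, e i = some x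
    · obtain ⟨i, hi⟩ := h
      exact Or.inr ⟨i, he2 i x hi⟩
    · left
      rw [hE]
      beta_reduce
      rw [if_neg h]
  have hE1 : ∑ x, (E x).card ≤ N :=
    (sum_le_sum fun x _ => card_le_card (hEsub x)).trans hE1₀
  have hE2 : ∀ x, E x ⊆ range U := fun x => (hEsub x).trans (hE2₀ x)
  obtain ⟨D, hD⟩ : ∃ D, D = N / V := ⟨_, rfl⟩
  obtain ⟨H, hH⟩ : ∃ H, H = high E U D := ⟨_, rfl⟩
  have hHV : H.card ≤ V := by
    rw [hH]
    refine card_high E hE2 hE1 ?_
    rw [hD, mul_comm]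
    exact Nat.lt_mul_div_succ N hV
  have hHU : H ⊆ range U := by
    rw [hH]
    exact filter_subset _ _
  have hNN : N ≤ N ^ 2 := by
    rw [sq]
    exact Nat.le_mul_of_pos_right _ hN1
  have hBN : N * D ≤ N ^ 2 := by
    rw [sq, hD]
    exact Nat.mul_le_mul_left _ (Nat.div_le_self _ _)
  have hRN : K * N / T ≤ N := by
    calc K * N / T ≤ T * N / T := Nat.div_le_div_right (Nat.mul_le_mul_right _ hKT)
      _ = N := Nat.mul_div_cancel_left _ hT
  obtain ⟨r, nm, hr1, hr2, hnm, hcode⟩ := hord H hHU hHV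
  obtain ⟨G, hG⟩ : ∃ G : Fin (K * N / T) → Finset ℕ, G = fun x => (E x ∩ H).image r := ⟨_, rfl⟩
  have hrinj : Set.InjOn r (H : Set ℕ) := by
    intro u hu v hv huv
    rw [← hr2 u hu, ← hr2 v hv, huv]
  have hG1 : ∀ x, G x ⊆ range V := by
    intro x p hp
    rw [hG] at hp
    obtain ⟨u, hu, rfl⟩ := mem_image.mp hp
    rw [mem_range]
    exact lt_of_lt_of_le (hr1 u (mem_inter.mp hu).2) hHV
  have hG2 : ∀ x, (code V (G x)).card ≤ k := by
    intro x
    rw [hG]
    beta_reduce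
    rcases hEF x with h | ⟨i, h⟩
    · rw [h, empty_inter, image_empty]
      have : code V ∅ = ∅ := by
        ext c
        simp [code]
      rw [this]
      exact Nat.zero_le _
    · rw [h]
      exact hcode i
  have hcore := hc G hG1 hG2
  have hGG : ∀ x y, G x ∩ G y = ((E x ∩ E y) ∩ H).image r := by
    intro x y
    rw [hG]
    ext p
    simp only [mem_inter, mem_image]
    constructor
    · rintro ⟨⟨u, ⟨h1, h2⟩, rfl⟩, ⟨v, ⟨h3, h4⟩, h5⟩⟩
      have h6 : v = u := hrinj h4 h2 h5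
      rw [h6] at h3
      exact ⟨u, ⟨⟨h1, h3⟩, h2⟩, rfl⟩
    · rintro ⟨u, ⟨⟨h1, h3⟩, h2⟩, rfl⟩
      exact ⟨⟨u, ⟨h1, h2⟩, rfl⟩, ⟨u, ⟨h3, h2⟩, rfl⟩⟩
  have hGc : ∀ x y, (G x ∩ G y).card = ((E x ∩ E y) ∩ H).card := by
    intro x y
    rw [hGG]
    exact card_image_of_injOn (hrinj.mono (by
      intro u hu
      exact (mem_inter.mp (mem_coe.mp hu)).2))
  have hGn : ∀ x y, (G x ∩ G y).image nm = (E x ∩ E y) ∩ H := by
    intro x y
    rw [hGG, image_image]
    ext u
    rw [mem_image]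
    constructor
    · rintro ⟨v, hv, rfl⟩
      show nm (r v) ∈ _
      rw [hr2 v (mem_inter.mp hv).2]
      exact hv
    · intro hu
      exact ⟨u, hu, hr2 u (mem_inter.mp hu).2⟩
  obtain ⟨arr1, st1, hp1⟩ := packing (fun i : Fin m => (F i).sort (· ≤ ·)) univ
  obtain ⟨arr2, st2, hp2⟩ := packing
    (fun p : Fin (K * N / T) × Fin (K * N / T) => ((E p.1 ∩ E p.2) \ H).toList) univ
  have hs1 : ∑ i, ((F i).sort (· ≤ ·)).length ≤ N := by
    simp only [length_sort]
    exact hN
  have hs2 : ∑ p : Fin (K * N / T) × Fin (K * N / T), ((E p.1 ∩ E p.2) \ H).toList.length ≤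
      N * D := by
    simp only [length_toList]
    rw [hH]
    exact low_pairs E hE2 hE1
  obtain ⟨fi, hfi⟩ : ∃ fi : Fin m → Fin 3 → ℕ, fi = fun i =>
      ![st1 i, (F i).card, (e i).elim 0 fun x => x.1 + 1] := ⟨_, rfl⟩
  obtain ⟨fp, hfp⟩ : ∃ fp : Fin (K * N / T) → Fin (K * N / T) → Fin 2 → ℕ, fp = fun x y =>
      ![st2 (x, y), ((E x ∩ E y) \ H).card] := ⟨_, rfl⟩
  obtain ⟨M, hM⟩ : ∃ M : Adr m N (K * N / T) (N * D) V (K * N / T * k) → Fin (2 ^ w),
      M = cell fi arr1 fp arr2 nm (memc G) := ⟨_, rfl⟩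
  rw [← hD]
  refine ⟨M, fun i j => ?_⟩
  -- the contents
  have hl1 : ∀ i, st1 i + (F i).card ≤ N := by
    intro i
    have := (hp1 i (mem_univ _)).1
    beta_reduce at this
    rw [length_sort] at this
    omega
  have hv0 : ∀ i, (M (aInfo i 0)).1 = st1 i := by
    intro i
    rw [hM]
    show (enc w (fi i 0)).1 = _
    rw [hfi]
    exact enc_val (by have := hl1 i; show st1 i < 2 ^ w; omega)
  have hv1 : ∀ i, (M (aInfo i 1)).1 = (F i).card := by
    intro i
    rw [hM]
    show (enc w (fi i 1)).1 = _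
    rw [hfi]
    exact enc_val (by have := hl1 i; show (F i).card < 2 ^ w; omega)
  have hv2 : ∀ i, (M (aInfo i 2)).1 = (e i).elim 0 fun x => x.1 + 1 := by
    intro i
    rw [hM]
    show (enc w (fi i 2)).1 = _
    rw [hfi]
    refine enc_val ?_
    show ((e i).elim 0 fun x => x.1 + 1) < 2 ^ w
    rcases e i with _ | x
    · exact Nat.pow_pos (by norm_num)
    · show x.1 + 1 < 2 ^ w
      have := x.2
      omega
  have hFw : ∀ i, ∀ x ∈ (F i).sort (· ≤ ·), x < 2 ^ w := by
    intro i x hx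
    have := hU i ((mem_sort _).mp hx)
    rw [mem_range] at this
    omega
  have hlen : ∀ i, ((F i).sort (· ≤ ·)).length = (F i).card := fun i => length_sort _
  have hNf : N < 2 ^ (Nat.log 2 N + 1) := Nat.lt_pow_succ_log_self (by norm_num) N
  -- small sets
  have htiny : ∀ i j, K * (F i).card < T →
      (tiny (st1 i) (F i).card (st1 j) (F j).card (Nat.log 2 N + 1)).run M = F i ∩ F j ∧
      (tiny (st1 i) (F i).card (st1 j) (F j).card (Nat.log 2 N + 1)).cost M ≤ T := by
    intro i j hi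
    have h1 := hp1 i (mem_univ _)
    have h2 := hp1 j (mem_univ _)
    have h3 := tiny_spec (fi := fi) (fp := fp) (fl := arr2) (fn := nm) (fc := memc G)
      (B := N * D) (V := V) (st1 i) (st1 j) (Nat.log 2 N + 1)
      ((F i).sort (· ≤ ·)) ((F j).sort (· ≤ ·)) h1.2 (h1.1.trans hs1) (hFw i) h2.2
      (h2.1.trans hs1) (hFw j) (sortedLT_sort (F j)).pairwise (by
        rw [hlen]
        have := hl1 j
        omega)
    rw [hlen, hlen, ← hM] at h3
    refine ⟨?_, ?_⟩
    · rw [h3.1, sort_toFinset]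
      ext u
      rw [mem_filter, mem_sort, mem_inter]
    · refine h3.2.trans ?_
      calc (F i).card * (Nat.log 2 N + 1 + 1) ≤ (F i).card * K := Nat.mul_le_mul_left _ (by omega)
        _ = K * (F i).card := mul_comm _ _
        _ ≤ T := hi.le
  have hrun : (alg algc (Nat.log 2 N + 1) i j).run M =
      (if (M (aInfo i 2)).1 = 0 then
        tiny (M (aInfo i 0)).1 (M (aInfo i 1)).1 (M (aInfo j 0)).1 (M (aInfo j 1)).1
          (Nat.log 2 N + 1)
      else if (M (aInfo j 2)).1 = 0 then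
        tiny (M (aInfo j 0)).1 (M (aInfo j 1)).1 (M (aInfo i 0)).1 (M (aInfo i 1)).1
          (Nat.log 2 N + 1)
      else big algc ((M (aInfo i 2)).1 - 1) ((M (aInfo j 2)).1 - 1)).run M := rfl
  have hcost : (alg algc (Nat.log 2 N + 1) i j).cost M =
      (if (M (aInfo i 2)).1 = 0 then
        tiny (M (aInfo i 0)).1 (M (aInfo i 1)).1 (M (aInfo j 0)).1 (M (aInfo j 1)).1
          (Nat.log 2 N + 1)
      else if (M (aInfo j 2)).1 = 0 then
        tiny (M (aInfo j 0)).1 (M (aInfo j 1)).1 (M (aInfo i 0)).1 (M (aInfo i 1)).1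
          (Nat.log 2 N + 1)
      else big algc ((M (aInfo i 2)).1 - 1) ((M (aInfo j 2)).1 - 1)).cost M + 6 := rfl
  rw [hrun, hcost]
  rw [hv0, hv0, hv1, hv1, hv2, hv2]
  rcases hei : e i with _ | x
  · rw [if_pos (show (Option.elim (none : Option (Fin (K * N / T))) 0 fun x => x.1 + 1) = 0
      from rfl)]
    obtain ⟨h1, h2⟩ := htiny i j (he1 i hei)
    exact ⟨h1, by omega⟩
  · rw [if_neg (show ¬ (Option.elim (some x) 0 fun x : Fin (K * N / T) => x.1 + 1) = 0 from
      Nat.succ_ne_zero _)]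
    rcases hej : e j with _ | y
    · rw [if_pos (show (Option.elim (none : Option (Fin (K * N / T))) 0 fun x => x.1 + 1) = 0
        from rfl)]
      obtain ⟨h1, h2⟩ := htiny j i (he1 j hej)
      rw [inter_comm (F i) (F j)]
      exact ⟨h1, by omega⟩
    · rw [if_neg (show ¬ (Option.elim (some y) 0 fun x : Fin (K * N / T) => x.1 + 1) = 0 from
        Nat.succ_ne_zero _)]
      show (big algc (x.1 + 1 - 1) (y.1 + 1 - 1)).run M = F i ∩ F j ∧
        (big algc (x.1 + 1 - 1) (y.1 + 1 - 1)).cost M + 6 ≤ _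
      rw [Nat.add_sub_cancel, Nat.add_sub_cancel]
      have h2 := hp2 (x, y) (mem_univ _)
      have hfp0 : fp x y 0 = st2 (x, y) := by rw [hfp]; rfl
      have hfp1 : fp x y 1 = ((E x ∩ E y) \ H).toList.length := by
        rw [hfp, length_toList]
        rfl
      have h2b := h2.1.trans hs2
      have h2c : ((E x ∩ E y) \ H).toList.length ≤ N * D := le_trans (Nat.le_add_left _ _) h2b
      have h2d : st2 (x, y) ≤ N * D := le_trans (Nat.le_add_right _ _) h2b
      obtain ⟨h3, h4⟩ := big_spec (fi := fi) (fe := arr1) (fp := fp) (fl := arr2) (fn := nm)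
        (fc := memc G) (N := N) (B := N * D) (V := V) (m := m) algc x y
        ((E x ∩ E y) \ H).toList (by rw [hfp0]; exact h2.2) (by rw [hfp0]; exact h2b)
        (by rw [hfp0]; omega) hfp1 (by omega) (by
          intro u hu
          have := hE2 x (mem_inter.mp (mem_sdiff.mp (mem_toList.mp hu)).1).1
          rw [mem_range] at this
          omega) (by
          intro p hp
          rw [(hcore x y).1] at hp
          have := hG1 x (mem_inter.mp hp).1
          rw [mem_range] at this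
          omega) hnm
      rw [← hM] at h3 h4
      have hFE : E x ∩ E y = F i ∩ F j := by rw [he2 i x hei, he2 j y hej]
      rw [h3, h4, (hcore x y).1, hGn, toList_toFinset, length_toList]
      constructor
      · rw [sdiff_union_inter, hFE]
      · have h5 := (hcore x y).2
        rw [hGc]
        have h6 : ((E x ∩ E y) \ H).card + ((E x ∩ E y) ∩ H).card = (F i ∩ F j).card := by
          rw [← hFE, card_sdiff_add_card_inter]
        rw [← h6]
        omega

/-- The structure for families of bounded dual VC-dimension. -/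
theorem upper {d q m U N w : ℕ} (hd : 2 ≤ d) (hq : 1 ≤ q) (hqN : q ^ d ≤ N) (hN : 2 ≤ N)
    (hw : N ^ 2 < 2 ^ w) (hUw : U ≤ 2 ^ w) (hm : m ≤ N) :
    ∃ s, s * q ^ d ≤ 2 * (Nat.log 2 N + 2) ^ 2 * N ^ 2 ∧
      HasStructureFor m U N (DualVC d U) s w (401 * q ^ (d - 1) + 6 * Nat.log 2 N) 1 := by
  classical
  obtain ⟨K, hK⟩ : ∃ K, K = Nat.log 2 N + 2 := ⟨_, rfl⟩
  obtain ⟨T, hT⟩ : ∃ T, T = 2 * Nat.log 2 N + 129 * q ^ (d - 1) + 2 := ⟨_, rfl⟩
  obtain ⟨V, hV⟩ : ∃ V, V = q ^ d := ⟨_, rfl⟩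
  have hlog1 : 1 ≤ Nat.log 2 N := Nat.log_pos (by norm_num) hN
  have hKT : K ≤ T := by omega
  have hT0 : 0 < T := by omega
  have hV0 : 0 < V := by rw [hV]; exact Nat.pow_pos hq
  have hq1 : 1 ≤ q ^ (d - 1) := Nat.one_le_pow _ _ hq
  have hNN : 2 * N ≤ N ^ 2 := by
    rw [sq]
    exact Nat.mul_le_mul_right _ hN
  obtain ⟨memc, algc, hc⟩ := core (K * N / T) V T w (by omega)
  have hpf := fun (F : Fin m → Finset ℕ) (h1 : ∀ i, F i ⊆ range U)
    (h2 : ∑ i, (F i).card ≤ N) (h3 : DualVC d U F) =>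
    per_family (k := T) hT0 hK.ge hKT hw hUw (by omega) hV0 memc algc hc F h1 h2
      (names (q := q) hd F h3 hUw hV.le (by
        have : Nat.log 2 m ≤ Nat.log 2 N := Nat.log_mono_right hm
        omega))
  obtain ⟨R, hR⟩ : ∃ R, R = K * N / T := ⟨_, rfl⟩
  obtain ⟨B, hB⟩ : ∃ B, B = N * (N / V) := ⟨_, rfl⟩
  have hcard : Fintype.card (Adr m N (K * N / T) (N * (N / V)) V (K * N / T * T)) =
      m * 3 + ((N + 1) + (R * R * 2 + ((B + 1) + ((V + 1) + R * T)))) := by
    simp only [Fintype.card_sum, Fintype.card_prod, Fintype.card_fin]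
    rw [← hR, ← hB]
  obtain ⟨φ⟩ : Nonempty (Adr m N (K * N / T) (N * (N / V)) V (K * N / T * T) ≃
      Fin (Fintype.card (Adr m N (K * N / T) (N * (N / V)) V (K * N / T * T)))) :=
    ⟨Fintype.equivFin _⟩
  refine ⟨Fintype.card (Adr m N (K * N / T) (N * (N / V)) V (K * N / T * T)), ?_,
    fun F => if hF : (∀ i, F i ⊆ range U) ∧ ∑ i, (F i).card ≤ N ∧ DualVC d U F then
      fun x => (hpf F hF.1 hF.2.1 hF.2.2).choose (φ.symm x) else
        fun _ => ⟨0, Nat.pow_pos (by norm_num)⟩,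
    fun i j => (alg algc (Nat.log 2 N + 1) i j).mapC φ, fun F h1 h2 h3 i j => ?_⟩
  · rw [hcard, ← hK, ← hV]
    have hRT : R * T ≤ K * N := by rw [hR]; exact Nat.div_mul_le_self _ _
    have hBV : B * V ≤ N * N := by
      rw [hB, mul_assoc]
      exact Nat.mul_le_mul_left _ (Nat.div_mul_le_self _ _)
    have hVN : V ≤ N := by rw [hV]; exact hqN
    have hVT : V ≤ T * T := by
      have h4 : V ≤ q ^ (d - 1) * q ^ (d - 1) := by
        rw [hV, ← pow_add]
        exact Nat.pow_le_pow_right hq (by omega)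
      refine h4.trans ?_
      exact Nat.mul_le_mul (by omega) (by omega)
    have h129 : 128 * V ≤ T * T := by
      have h4 : V ≤ q ^ (d - 1) * q ^ (d - 1) := by
        rw [hV, ← pow_add]
        exact Nat.pow_le_pow_right hq (by omega)
      have h5 : (129 * q ^ (d - 1)) * (129 * q ^ (d - 1)) ≤ T * T :=
        Nat.mul_le_mul (by omega) (by omega)
      nlinarith [h4, h5]
    have e1 : 128 * (R * R * V) ≤ K ^ 2 * N ^ 2 := by
      calc 128 * (R * R * V) = R * R * (128 * V) := by ring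
        _ ≤ R * R * (T * T) := Nat.mul_le_mul_left _ h129
        _ = (R * T) * (R * T) := by ring
        _ ≤ (K * N) * (K * N) := Nat.mul_le_mul hRT hRT
        _ = K ^ 2 * N ^ 2 := by ring
    have e2 : R * T * V ≤ K * N ^ 2 := by
      calc R * T * V ≤ (K * N) * N := Nat.mul_le_mul hRT hVN
        _ = _ := by ring
    have e3 : m * 3 * V ≤ 3 * N ^ 2 := by
      calc m * 3 * V ≤ N * 3 * N := Nat.mul_le_mul (by omega) hVN
        _ = _ := by ring
    have e4 : (N + 1) * V ≤ N ^ 2 + N := by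
      calc (N + 1) * V ≤ (N + 1) * N := Nat.mul_le_mul_left _ hVN
        _ = _ := by ring
    have e5 : (V + 1) * V ≤ N ^ 2 + N := by
      calc (V + 1) * V ≤ (N + 1) * N := Nat.mul_le_mul (by omega) hVN
        _ = _ := by ring
    have hK3 : 3 ≤ K := by omega
    have e6 : 3 * (K * N ^ 2) ≤ K ^ 2 * N ^ 2 := by
      calc 3 * (K * N ^ 2) ≤ K * (K * N ^ 2) := Nat.mul_le_mul_right _ hK3
        _ = _ := by ring
    have e7 : 9 * N ^ 2 ≤ K ^ 2 * N ^ 2 := by
      refine Nat.mul_le_mul_right _ ?_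
      nlinarith
    have e8 : (m * 3 + ((N + 1) + (R * R * 2 + ((B + 1) + ((V + 1) + R * T))))) * V =
        m * 3 * V + (N + 1) * V + 2 * (R * R * V) + B * V + V + (V + 1) * V + R * T * V := by
      ring
    rw [e8]
    have hBV' : B * V ≤ N ^ 2 := by rw [sq]; exact hBV
    have goal' : m * 3 * V + (N + 1) * V + 2 * (R * R * V) + B * V + V + (V + 1) * V + R * T * V ≤
        2 * (K ^ 2 * N ^ 2) := by
      generalize K ^ 2 * N ^ 2 = a1 at *
      generalize K * N ^ 2 = a2 at *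
      generalize N ^ 2 = a3 at *
      generalize R * R * V = a4 at *
      generalize R * T * V = a5 at *
      generalize m * 3 * V = a6 at *
      generalize (N + 1) * V = a7 at *
      generalize (V + 1) * V = a8 at *
      generalize B * V = a9 at *
      omega
    rw [mul_assoc 2]
    exact goal'
  · beta_reduce
    rw [dif_pos ⟨h1, h2, h3⟩, run_mapC, cost_mapC]
    have h4 : (fun x => (hpf F h1 h2 h3).choose (φ.symm (φ x))) = (hpf F h1 h2 h3).choose := by
      funext x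
      rw [Equiv.symm_apply_apply]
    rw [h4]
    obtain ⟨h5, h6⟩ := (hpf F h1 h2 h3).choose_spec i j
    refine ⟨h5, h6.trans ?_⟩
    omega

end Pool.Agent.H711.VO
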