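import Pool.Graph.R_pool_sql_team_seeded_2aa45f1a.Q275.DualVC

/-! Linear orders of low crossing number for set systems of bounded dual VC-dimension (helper711). -/

set_option autoImplicit false

open Finset

namespace Pool.Agent.H711.VO

open Pool.Agent.Q275.BF

/-- the number of neighbours in the list which are separated by `A` -/
def cross {α : Type} [DecidableEq α] (A : Finset α) : List α → ℕ
  | [] => 0
  | [_] => 0
  | x :: y :: l => (if (x ∈ A ↔ y ∈ A) then 0 else 1) + cross A (y :: l)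

section
variable {α : Type} [DecidableEq α]

lemma cross_cons_cons (A : Finset α) (x y : α) (l : List α) :
    cross A (x :: y :: l) = (if (x ∈ A ↔ y ∈ A) then 0 else 1) + cross A (y :: l) := rfl

lemma cross_ins (A : Finset α) (x y : α) : ∀ (l1 l2 : List α),
    cross A (l1 ++ x :: y :: l2) ≤
      cross A (l1 ++ x :: l2) + 2 * (if (x ∈ A ↔ y ∈ A) then 0 else 1)
  | [], [] => by
    simp only [List.nil_append, cross_cons_cons, cross]
    omega
  | [], z :: l3 => by
    simp only [List.nil_append, cross_cons_cons]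
    by_cases h1 : x ∈ A <;> by_cases h2 : y ∈ A <;> by_cases h3 : z ∈ A <;>
      simp [h1, h2, h3] <;> omega
  | [a], l2 => by
    have ih := cross_ins A x y [] l2
    simp only [List.nil_append, List.cons_append, cross_cons_cons] at ih ⊢
    omega
  | a :: b :: l1, l2 => by
    have ih := cross_ins A x y (b :: l1) l2
    simp only [List.cons_append, cross_cons_cons] at ih ⊢
    omega

lemma cross_eq (A : Finset α) (e : α) : ∀ l : List α,
    cross A l = ((range (l.length - 1)).filter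
      fun p => ¬ (l.getD p e ∈ A ↔ l.getD (p + 1) e ∈ A)).card
  | [] => by simp [cross]
  | [x] => by simp [cross]
  | x :: y :: l => by
    have ih := cross_eq A e (y :: l)
    rw [cross_cons_cons, ih]
    have h1 : (x :: y :: l).length - 1 = l.length + 1 := by simp
    have h2 : (y :: l).length - 1 = l.length := by simp
    rw [h1, h2, card_filter, card_filter, sum_range_succ']
    simp only [List.getD_cons_succ, List.getD_cons_zero]
    rw [add_comm]
    congr 1
    by_cases h1 : x ∈ A <;> by_cases h2 : y ∈ A <;> simp [h1, h2]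

end

/-- a bound for the fraction of the weight which separates some two of `N` elements -/
noncomputable def fr (d N : ℕ) : ℝ := 22 * (N : ℝ) ^ (-(1 / (d : ℝ)))

lemma fr_nonneg (d N : ℕ) : 0 ≤ fr d N := by unfold fr; positivity

lemma pair_fr {n m : ℕ} (S : Fin m → Finset (Fin n)) {d : ℕ} (hd1 : 1 ≤ d)
    (hd : ∀ J : Finset (Fin m), DuallyShattered S J → J.card ≤ d) (w : Fin m → ℕ)
    (X : Finset (Fin n)) (hX : 2 ≤ X.card) :
    ∃ x ∈ X, ∃ y ∈ X, x ≠ y ∧
      ((∑ j ∈ sep S x y, w j : ℕ) : ℝ) ≤ ((∑ j, w j : ℕ) : ℝ) * fr d X.card := by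
  obtain ⟨x, hx, y, hy, hxy, h⟩ := pair S univ hd1 (fun J _ => hd J) w
    (fun j _ => mem_univ j) X hX
  refine ⟨x, hx, y, hy, hxy, ?_⟩
  set s : ℝ := ((∑ j ∈ sep S x y, w j : ℕ) : ℝ) with hs
  set W : ℝ := ((∑ j, w j : ℕ) : ℝ) with hW
  have hs0 : 0 ≤ s := Nat.cast_nonneg _
  have hW0 : 0 ≤ W := Nat.cast_nonneg _
  have hN : (0 : ℝ) < (X.card : ℝ) := by
    have : 0 < X.card := by omega
    exact_mod_cast this
  have hd0 : (d : ℝ) ≠ 0 := by
    have : 0 < d := hd1
    positivity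
  have h1 : ((X.card : ℝ) ^ (-(1 / (d : ℝ)))) ^ d = (X.card : ℝ)⁻¹ := by
    rw [← Real.rpow_natCast, ← Real.rpow_mul hN.le]
    have : -(1 / (d : ℝ)) * d = -1 := by field_simp
    rw [this, Real.rpow_neg_one]
  have hf : 0 ≤ fr d X.card := fr_nonneg _ _
  refine le_of_pow_le_pow_left₀ (n := d) (by omega) (by positivity) ?_
  have h2 : (W * fr d X.card) ^ d = (22 * W) ^ d * (X.card : ℝ)⁻¹ := by
    rw [← h1, fr]
    ring
  rw [h2, ← div_eq_mul_inv, le_div_iff₀ hN]
  linarith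

/-- The bound for the growth of the weight. -/
noncomputable def Ph (d : ℕ) : ℕ → ℝ
  | 0 => 1
  | 1 => 1
  | N + 2 => Ph d (N + 1) * (1 + fr d (N + 2))

lemma Ph_pos (d : ℕ) : ∀ N, 0 < Ph d N
  | 0 => by simp [Ph]
  | 1 => by simp [Ph]
  | N + 2 => by
    have h1 := Ph_pos d (N + 1)
    have h2 := fr_nonneg d (N + 2)
    rw [Ph]
    positivity

theorem order_aux {n m : ℕ} (S : Fin m → Finset (Fin n)) {d : ℕ} (hd1 : 1 ≤ d)
    (hd : ∀ J : Finset (Fin m), DuallyShattered S J → J.card ≤ d) :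
    ∀ (k : ℕ) (X : Finset (Fin n)), X.card = k → ∀ w : Fin m → ℕ,
      ∃ (L : List (Fin n)) (κ : Fin m → ℕ), L.Nodup ∧ (∀ x, x ∈ L ↔ x ∈ X) ∧
        (∀ j, cross (S j) L ≤ 2 * κ j) ∧
        ((∑ j, w j * 2 ^ κ j : ℕ) : ℝ) ≤ ((∑ j, w j : ℕ) : ℝ) * Ph d k := by
  intro k
  induction k with
  | zero =>
    intro X hX w
    rw [card_eq_zero] at hX
    exact ⟨[], fun _ => 0, List.nodup_nil, fun x => by simp [hX], fun j => by simp [cross],
      by simp [Ph]⟩
  | succ k ih =>
    intro X hX w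
    rcases Nat.eq_zero_or_pos k with h0 | h0
    · subst h0
      obtain ⟨x, rfl⟩ := card_eq_one.mp hX
      exact ⟨[x], fun _ => 0, List.nodup_singleton _, fun y => by simp, fun j => by simp [cross],
        by simp [Ph]⟩
    · obtain ⟨x, hx, y, hy, hxy, hsep⟩ := pair_fr S hd1 hd w X (by omega)
      obtain ⟨L, κ, hL1, hL2, hL3, hL4⟩ := ih (X.erase y) (by rw [card_erase_of_mem hy]; omega)
        (fun j => if j ∈ sep S x y then w j * 2 else w j)
      have hxL : x ∈ L := (hL2 x).mpr (mem_erase.mpr ⟨hxy, hx⟩)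
      have hyL : y ∉ L := fun h => (mem_erase.mp ((hL2 y).mp h)).1 rfl
      obtain ⟨l1, l2, rfl⟩ := List.append_of_mem hxL
      refine ⟨l1 ++ x :: y :: l2, fun j => κ j + if j ∈ sep S x y then 1 else 0, ?_, ?_, ?_, ?_⟩
      · have h1 : (l1 ++ x :: y :: l2) = (l1 ++ [x]) ++ y :: l2 := by simp
        have h2 : (l1 ++ x :: l2) = (l1 ++ [x]) ++ l2 := by simp
        rw [h1]
        rw [h2] at hL1 hyL
        exact (List.nodup_middle).mpr (List.nodup_cons.mpr ⟨hyL, hL1⟩)
      · intro z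
        have := hL2 z
        simp only [List.mem_append, List.mem_cons, mem_erase] at this ⊢
        by_cases hzy : z = y
        · subst hzy
          simp [hy]
        · simp only [hzy, false_or, ne_eq, not_false_eq_true, true_and] at this ⊢
          exact this
      · intro j
        refine (cross_ins (S j) x y l1 l2).trans ?_
        have h3 := hL3 j
        have h4 : (if (x ∈ S j ↔ y ∈ S j) then 0 else 1) = (if j ∈ sep S x y then 1 else 0) := by
          unfold sep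
          by_cases h5 : (x ∈ S j ↔ y ∈ S j)
          · simp [h5]
          · simp [h5]
        rw [h4]
        show _ ≤ 2 * (κ j + if j ∈ sep S x y then 1 else 0)
        omega
      · have e1 : (∑ j, w j * 2 ^ (κ j + if j ∈ sep S x y then 1 else 0)) =
            ∑ j, (if j ∈ sep S x y then w j * 2 else w j) * 2 ^ κ j := by
          refine sum_congr rfl fun j _ => ?_
          split_ifs
          · ring
          · simp
        rw [e1]
        refine hL4.trans ?_
        have e2 : (∑ j, (if j ∈ sep S x y then w j * 2 else w j)) =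
            ∑ j, w j + ∑ j ∈ sep S x y, w j := by
          have : ∀ j, (if j ∈ sep S x y then w j * 2 else w j) =
              w j + if j ∈ sep S x y then w j else 0 := by
            intro j
            split_ifs <;> ring
          simp only [this]
          rw [sum_add_distrib, sum_ite_mem, univ_inter]
        rw [e2]
        obtain ⟨k', rfl⟩ : ∃ k', k = k' + 1 := ⟨k - 1, by omega⟩
        rw [show k' + 1 + 1 = k' + 2 from rfl, Ph]
        have h5 := Ph_pos d (k' + 1)
        have h6 : ((∑ j, w j + ∑ j ∈ sep S x y, w j : ℕ) : ℝ) ≤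
            ((∑ j, w j : ℕ) : ℝ) * (1 + fr d (k' + 2)) := by
          rw [hX] at hsep
          push_cast at hsep ⊢
          linarith
        calc ((∑ j, w j + ∑ j ∈ sep S x y, w j : ℕ) : ℝ) * Ph d (k' + 1) ≤
            (((∑ j, w j : ℕ) : ℝ) * (1 + fr d (k' + 2))) * Ph d (k' + 1) :=
              mul_le_mul_of_nonneg_right h6 h5.le
          _ = _ := by ring

lemma rpow_step {d : ℕ} (hd : 2 ≤ d) (N : ℕ) :
    ((N : ℝ) + 1) ^ (-(1 / (d : ℝ))) ≤
      2 * (((N : ℝ) + 1) ^ (1 - 1 / (d : ℝ)) - (N : ℝ) ^ (1 - 1 / (d : ℝ))) := by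
  have hd' : (2 : ℝ) ≤ d := by exact_mod_cast hd
  have he : 1 / (d : ℝ) ≤ 1 / 2 := one_div_le_one_div_of_le (by norm_num) hd'
  have he0 : 0 < 1 / (d : ℝ) := by positivity
  set e := 1 / (d : ℝ)
  have hN : (0 : ℝ) < (N : ℝ) + 1 := by positivity
  have h1 : (N : ℝ) ^ (1 - e) ≤ ((N : ℝ) + 1) ^ (1 - e) * (1 + (1 - e) * (-(1 / ((N : ℝ) + 1)))) := by
    have h2 := rpow_one_add_le_one_add_mul_self (s := -(1 / ((N : ℝ) + 1))) (by
      have : 1 / ((N : ℝ) + 1) ≤ 1 := by
        rw [div_le_one hN]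
        have := Nat.cast_nonneg (α := ℝ) N
        linarith
      linarith) (p := 1 - e) (by linarith) (by linarith)
    have h3 : (N : ℝ) = ((N : ℝ) + 1) * (1 + -(1 / ((N : ℝ) + 1))) := by
      field_simp
      ring
    conv_lhs => rw [h3]
    rw [Real.mul_rpow hN.le (by
      have : 1 / ((N : ℝ) + 1) ≤ 1 := by
        rw [div_le_one hN]
        have := Nat.cast_nonneg (α := ℝ) N
        linarith
      linarith)]
    exact mul_le_mul_of_nonneg_left h2 (by positivity)
  have h4 : ((N : ℝ) + 1) ^ (1 - e) * (1 / ((N : ℝ) + 1)) = ((N : ℝ) + 1) ^ (-e) := by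
    rw [one_div, ← Real.rpow_neg_one ((N : ℝ) + 1), ← Real.rpow_add hN]
    congr 1
    ring
  have h5 : 0 ≤ ((N : ℝ) + 1) ^ (-e) := by positivity
  have h6 : (1 - e) * ((N : ℝ) + 1) ^ (-e) ≤
      ((N : ℝ) + 1) ^ (1 - e) - (N : ℝ) ^ (1 - e) := by
    rw [← h4]
    nlinarith [h1]
  nlinarith [h6, h5]

lemma Ph_le {d : ℕ} (hd : 2 ≤ d) : ∀ N : ℕ,
    Ph d N ≤ Real.exp (44 * (N : ℝ) ^ (1 - 1 / (d : ℝ)))
  | 0 => by
    rw [Ph]
    exact Real.one_le_exp (by positivity)
  | 1 => by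
    rw [Ph]
    exact Real.one_le_exp (by positivity)
  | N + 2 => by
    have ih := Ph_le hd (N + 1)
    rw [Ph]
    have h1 : 1 + fr d (N + 2) ≤ Real.exp (44 * ((((N + 1 : ℕ) : ℝ) + 1) ^ (1 - 1 / (d : ℝ)) -
        ((N + 1 : ℕ) : ℝ) ^ (1 - 1 / (d : ℝ)))) := by
      have h2 := rpow_step hd (N + 1)
      have h3 : fr d (N + 2) ≤ 44 * ((((N + 1 : ℕ) : ℝ) + 1) ^ (1 - 1 / (d : ℝ)) -
        ((N + 1 : ℕ) : ℝ) ^ (1 - 1 / (d : ℝ))) := by
        unfold fr
        have h4 : ((N + 2 : ℕ) : ℝ) = ((N + 1 : ℕ) : ℝ) + 1 := by push_cast; ring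
        rw [h4]
        linarith
      have h5 := Real.add_one_le_exp (44 * ((((N + 1 : ℕ) : ℝ) + 1) ^ (1 - 1 / (d : ℝ)) -
        ((N + 1 : ℕ) : ℝ) ^ (1 - 1 / (d : ℝ))))
      linarith
    have h6 : 0 ≤ 1 + fr d (N + 2) := by
      have := fr_nonneg d (N + 2)
      linarith
    calc Ph d (N + 1) * (1 + fr d (N + 2)) ≤
        Real.exp (44 * ((N + 1 : ℕ) : ℝ) ^ (1 - 1 / (d : ℝ))) *
        Real.exp (44 * ((((N + 1 : ℕ) : ℝ) + 1) ^ (1 - 1 / (d : ℝ)) -
        ((N + 1 : ℕ) : ℝ) ^ (1 - 1 / (d : ℝ)))) :=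
          mul_le_mul ih h1 h6 (Real.exp_pos _).le
      _ = _ := by
        rw [← Real.exp_add]
        congr 1
        push_cast
        ring_nf

/-- **Orders of low crossing number.** -/
theorem order {n m : ℕ} (S : Fin m → Finset (Fin n)) {d q : ℕ} (hd2 : 2 ≤ d)
    (hn : n ≤ q ^ d)
    (hd : ∀ J : Finset (Fin m), DuallyShattered S J → J.card ≤ d) :
    ∃ L : List (Fin n), L.Nodup ∧ (∀ x, x ∈ L) ∧
      ∀ j, cross (S j) L ≤ 2 * Nat.log 2 m + 129 * q ^ (d - 1) := by
  classical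
  obtain ⟨L, κ, h1, h2, h3, h4⟩ := order_aux S (by omega : 1 ≤ d) hd n univ (by simp) (fun _ => 1)
  refine ⟨L, h1, fun x => (h2 x).mpr (mem_univ x), fun j => ?_⟩
  have hm : 0 < m := j.pos
  have h5 : ((2 : ℝ)) ^ κ j ≤ (m : ℝ) * Ph d n := by
    have h6 : (2 : ℕ) ^ κ j ≤ ∑ j, 1 * 2 ^ κ j := by
      have := single_le_sum (f := fun j => 1 * 2 ^ κ j) (fun i _ => Nat.zero_le _) (mem_univ j)
      simpa using this
    have h7 : ((2 : ℝ)) ^ κ j ≤ ((∑ j, 1 * 2 ^ κ j : ℕ) : ℝ) := by exact_mod_cast h6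
    refine h7.trans (h4.trans ?_)
    simp
  have hd' : (2 : ℝ) ≤ d := by exact_mod_cast hd2
  have hd0 : (d : ℝ) ≠ 0 := by positivity
  have h8 : (n : ℝ) ^ (1 - 1 / (d : ℝ)) ≤ (q : ℝ) ^ (d - 1) := by
    have h9 : (n : ℝ) ≤ (q : ℝ) ^ d := by exact_mod_cast hn
    have he : 0 ≤ 1 - 1 / (d : ℝ) := by
      have : 1 / (d : ℝ) ≤ 1 / 2 := one_div_le_one_div_of_le (by norm_num) hd'
      linarith
    refine (Real.rpow_le_rpow (Nat.cast_nonneg _) h9 he).trans (le_of_eq ?_)
    rw [← Real.rpow_natCast (q : ℝ) d, ← Real.rpow_mul (Nat.cast_nonneg _),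
      ← Real.rpow_natCast (q : ℝ) (d - 1)]
    congr 1
    rw [Nat.cast_sub (by omega)]
    field_simp
    push_cast
    ring
  have h10 : (2 : ℝ) ^ κ j ≤ (m : ℝ) * Real.exp (44 * (q : ℝ) ^ (d - 1)) := by
    refine h5.trans (mul_le_mul_of_nonneg_left ((Ph_le hd2 n).trans ?_) (Nat.cast_nonneg _))
    exact Real.exp_le_exp.mpr (by linarith)
  have h11 : (m : ℝ) < 2 ^ (Nat.log 2 m + 1) := by
    exact_mod_cast Nat.lt_pow_succ_log_self (by norm_num) m
  -- take logarithms
  have h12 : (κ j : ℝ) * Real.log 2 ≤ (Nat.log 2 m + 1 : ℝ) * Real.log 2 +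
      44 * (q : ℝ) ^ (d - 1) := by
    have h13 : Real.log ((2 : ℝ) ^ κ j) ≤
        Real.log ((2 : ℝ) ^ (Nat.log 2 m + 1) * Real.exp (44 * (q : ℝ) ^ (d - 1))) := by
      refine Real.log_le_log (by positivity) (h10.trans ?_)
      exact mul_le_mul_of_nonneg_right h11.le (Real.exp_pos _).le
    rw [Real.log_mul (by positivity) (Real.exp_pos _).ne', Real.log_exp, Real.log_pow,
      Real.log_pow] at h13
    push_cast at h13
    exact h13
  have hlog := Real.log_two_gt_d9
  have hq : (0 : ℝ) ≤ (q : ℝ) ^ (d - 1) := by positivity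
  have h14 : (κ j : ℝ) ≤ (Nat.log 2 m : ℝ) + 1 + 63.5 * (q : ℝ) ^ (d - 1) := by
    by_contra h15
    push Not at h15
    have h16 : ((Nat.log 2 m : ℝ) + 1 + 63.5 * (q : ℝ) ^ (d - 1)) * Real.log 2 <
        (κ j : ℝ) * Real.log 2 := mul_lt_mul_of_pos_right h15 (by linarith)
    nlinarith [h16, h12, hq, hlog]
  rcases Nat.eq_zero_or_pos n with hn0 | hn0
  · subst hn0
    have : L = [] := by
      rcases L with _ | ⟨x, _⟩
      · rfl
      · exact x.elim0
    rw [this]
    simp [cross]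
  · have hq0 : 0 < q := by
      rcases Nat.eq_zero_or_pos q with h | h
      · rw [h, zero_pow (by omega)] at hn
        omega
      · exact h
    have hq1 : 1 ≤ q ^ (d - 1) := Nat.one_le_pow _ _ hq0
    have hq1' : (1 : ℝ) ≤ (q : ℝ) ^ (d - 1) := by exact_mod_cast hq1
    have h17 := h3 j
    have h18 : ((2 * κ j : ℕ) : ℝ) ≤ ((2 * Nat.log 2 m + 129 * q ^ (d - 1) : ℕ) : ℝ) := by
      push_cast
      linarith
    have h19 : 2 * κ j ≤ 2 * Nat.log 2 m + 129 * q ^ (d - 1) := by exact_mod_cast h18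
    omega

end Pool.Agent.H711.VO
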